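import Pool.Agent.Work.MP_28b0d6_al.Mono

set_option autoImplicit false

namespace Pool.Agent.Work.MP_28b0d6_al

open MvPolynomial

universe u v

section base

variable {K : Type u} [Field K] {V : Type v}

/-- the coefficient of the variable `x` -/
noncomputable def lc (f : MvPolynomial V K) (x : V) : K := coeff (Finsupp.single x 1) f

theorem degree_one {m : V →₀ ℕ} (hm : m.degree = 1) : ∃ x, m = Finsupp.single x 1 := by
  classical
  have hne : m ≠ 0 := by
    rintro rfl
    simp at hm
  obtain ⟨x, hx⟩ := Finsupp.ne_iff.1 hne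
  have hx1 : Finsupp.single x 1 ≤ m := by
    intro y
    rw [Finsupp.single_apply]
    split_ifs with h
    · subst h
      simp only [Finsupp.coe_zero, Pi.zero_apply] at hx
      omega
    · exact Nat.zero_le _
  obtain ⟨r, rfl⟩ := exists_add_of_le hx1
  refine ⟨x, ?_⟩
  rw [map_add, Finsupp.degree_single] at hm
  have : r.degree = 0 := by omega
  rw [Finsupp.degree_eq_zero_iff] at this
  rw [this, add_zero]

theorem linear_eq [Fintype V] {θ : MvPolynomial V K} (h : θ.IsHomogeneous 1) :
    θ = ∑ x, C (lc θ x) * X x := by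
  classical
  ext m
  rw [coeff_sum]
  simp only [coeff_C_mul]
  by_cases hm : m.degree = 1
  · obtain ⟨x, rfl⟩ := degree_one hm
    rw [Finset.sum_eq_single x]
    · rw [coeff_X, if_pos rfl, mul_one]; rfl
    · intro y _ hy
      rw [coeff_X, if_neg (by
        intro h
        exact hy (Finsupp.single_left_injective one_ne_zero h)), mul_zero]
    · intro h; exact absurd (Finset.mem_univ _) h
  · rw [h.coeff_eq_zero hm]
    symm
    apply Finset.sum_eq_zero
    intro x _
    rw [coeff_X, if_neg, mul_zero]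
    intro h'
    apply hm
    rw [← h']
    simp

/-- `Θ` restricted to `F` is invertible. -/
def Inv (Θ : Fin 3 → MvPolynomial V K) (F : Finset V) : Prop :=
  (∀ t : V → K, ∃ γ : Fin 3 → K, ∀ x ∈ F, ∑ i, γ i * lc (Θ i) x = t x) ∧
  (∀ γ : Fin 3 → K, (∀ x ∈ F, ∑ i, γ i * lc (Θ i) x = 0) → γ = 0)

theorem reg_X : Reg (X 0 : MvPolynomial (Fin 3) K) (X 1) (X 2) ⊥ := by
  refine ⟨?_, ?_, ?_⟩
  · intro f hf
    rw [Ideal.mem_bot] at hf ⊢
    rcases mul_eq_zero.1 hf with h | h
    · exact absurd h (X_ne_zero _)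
    · exact h
  · intro f a hf
    rw [Ideal.mem_bot, sub_eq_zero] at hf
    have h0 : f ∈ Ideal.span (X '' ({0} : Set (Fin 3)) : Set (MvPolynomial (Fin 3) K)) := by
      have h1 : X 1 * f ∈ Ideal.span (X '' ({0} : Set (Fin 3)) : Set (MvPolynomial (Fin 3) K)) := by
        rw [hf]
        exact Ideal.mul_mem_right _ _ (Ideal.subset_span ⟨0, rfl, rfl⟩)
      rw [mem_ideal_span_X_image] at h1 ⊢
      intro m hm
      obtain ⟨i, hi, h2⟩ := h1 (m + Finsupp.single 1 1) (by
        rw [mem_support_iff, mul_comm, coeff_mul_X]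
        exact mem_support_iff.1 hm)
      refine ⟨i, hi, ?_⟩
      rw [Set.mem_singleton_iff] at hi
      subst hi
      simpa using h2
    rw [Set.image_singleton, Ideal.mem_span_singleton] at h0
    obtain ⟨q, hq⟩ := h0
    exact ⟨q, by rw [hq, sub_self]; exact Ideal.zero_mem _⟩
  · intro f a b hf
    have hf' : X 2 * f = X 0 * a + X 1 * b := by
      rw [Ideal.mem_bot] at hf
      calc X 2 * f = (X 2 * f - X 0 * a - X 1 * b) + (X 0 * a + X 1 * b) := by ring
        _ = _ := by rw [hf, zero_add]
    have h0 : f ∈ Ideal.span (X '' ({0, 1} : Set (Fin 3)) : Set (MvPolynomial (Fin 3) K)) := by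
      have h1 : X 2 * f ∈ Ideal.span (X '' ({0, 1} : Set (Fin 3)) :
          Set (MvPolynomial (Fin 3) K)) := by
        rw [hf']
        exact Ideal.add_mem _ (Ideal.mul_mem_right _ _ (Ideal.subset_span ⟨0, Or.inl rfl, rfl⟩))
          (Ideal.mul_mem_right _ _ (Ideal.subset_span ⟨1, Or.inr rfl, rfl⟩))
      rw [mem_ideal_span_X_image] at h1 ⊢
      intro m hm
      obtain ⟨i, hi, h2⟩ := h1 (m + Finsupp.single 2 1) (by
        rw [mem_support_iff, mul_comm, coeff_mul_X]
        exact mem_support_iff.1 hm)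
      refine ⟨i, hi, ?_⟩
      rcases hi with rfl | rfl
      · simpa using h2
      · simpa using h2
    rw [Set.image_pair, Ideal.mem_span_pair] at h0
    obtain ⟨q, r, hq⟩ := h0
    exact ⟨q, r, by rw [Ideal.mem_bot, ← hq]; ring⟩

theorem reg_facetIdeal [Fintype V] {Θ : Fin 3 → MvPolynomial V K}
    (hΘ : ∀ i, (Θ i).IsHomogeneous 1) {F : Finset V} (hF : Inv Θ F) :
    Reg (Θ 0) (Θ 1) (Θ 2) (facetIdeal K F) := by
  classical
  obtain ⟨hsurj, hinj⟩ := hF
  -- inverse matrix
  have hB : ∀ x : V, ∃ γ : Fin 3 → K, ∀ y ∈ F, ∑ i, γ i * lc (Θ i) y = if y = x then 1 else 0 :=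
    fun x => hsurj (fun y => if y = x then 1 else 0)
  choose B hB using hB
  have hB2 : ∀ i j, ∑ x ∈ F, lc (Θ i) x * B x j = if i = j then 1 else 0 := by
    intro i
    have h0 := hinj (fun j => ∑ x ∈ F, lc (Θ i) x * B x j - if i = j then 1 else 0) (by
      intro y hy
      have h1 : ∑ j, (∑ x ∈ F, lc (Θ i) x * B x j) * lc (Θ j) y = lc (Θ i) y := by
        simp only [Finset.sum_mul]
        rw [Finset.sum_comm]
        have h2 : ∀ x ∈ F, ∑ j, lc (Θ i) x * B x j * lc (Θ j) y
            = lc (Θ i) x * if y = x then 1 else 0 := by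
          intro x _
          rw [← hB x y hy, Finset.mul_sum]
          refine Finset.sum_congr rfl ?_
          intro j _; ring
        rw [Finset.sum_congr rfl h2]
        simp [hy]
      simp only [sub_mul, Finset.sum_sub_distrib, h1]
      simp)
    intro j
    have := congrFun h0 j
    simp only [Pi.zero_apply] at this
    exact sub_eq_zero.1 this
  let ψ : MvPolynomial V K →ₐ[K] MvPolynomial (Fin 3) K :=
    aeval (fun x => if x ∈ F then ∑ j, C (B x j) * X j else 0)
  let s : MvPolynomial (Fin 3) K →ₐ[K] MvPolynomial V K := aeval Θ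
  have hψΘ : ∀ i, ψ (Θ i) = X i := by
    intro i
    conv_lhs => rw [linear_eq (hΘ i)]
    rw [map_sum]
    have h1 : ∀ x, ψ (C (lc (Θ i) x) * X x) = if x ∈ F then
        ∑ j, C (lc (Θ i) x * B x j) * X j else 0 := by
      intro x
      simp only [ψ, map_mul, aeval_X, ← algebraMap_eq, AlgHom.commutes]
      split_ifs
      · rw [Finset.mul_sum]
        refine Finset.sum_congr rfl ?_
        intro j _
        rw [mul_assoc]
      · rw [mul_zero]
    rw [Finset.sum_congr rfl (fun x _ => h1 x), ← Finset.sum_filter]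
    rw [Finset.sum_comm]
    have h2 : ∀ j, ∑ x ∈ Finset.univ.filter (· ∈ F), C (lc (Θ i) x * B x j) * X j
        = (C (if i = j then (1 : K) else 0) * X j : MvPolynomial (Fin 3) K) := by
      intro j
      rw [← Finset.sum_mul, ← map_sum]
      congr 2
      rw [← hB2 i j]
      refine Finset.sum_congr ?_ (fun _ _ => rfl)
      ext x; simp
    rw [Finset.sum_congr rfl (fun j _ => h2 j)]
    rw [Finset.sum_eq_single i]
    · simp
    · intro j _ hj
      rw [if_neg (Ne.symm hj)]; simp
    · intro h; exact absurd (Finset.mem_univ _) h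
  have hψs : ∀ q, ψ (s q) = q := by
    intro q
    have : (ψ.comp s) = AlgHom.id K _ := by
      apply MvPolynomial.algHom_ext
      intro i
      simp only [AlgHom.comp_apply, s, aeval_X, hψΘ, AlgHom.id_apply]
    exact congrArg (fun g => g q) this
  have hψP : ∀ f ∈ facetIdeal K F, ψ f = 0 := by
    intro f hf
    have : facetIdeal K F ≤ RingHom.ker ψ := by
      unfold facetIdeal
      rw [Ideal.span_le]
      rintro _ ⟨x, hx, rfl⟩
      simp only [SetLike.mem_coe, RingHom.mem_ker, ψ, aeval_X]
      exact if_neg hx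
    exact this hf
  have hsψ : ∀ f, f - s (ψ f) ∈ facetIdeal K F := by
    intro f
    rw [← Ideal.Quotient.eq]
    have : (Ideal.Quotient.mkₐ K (facetIdeal K F)).comp (s.comp ψ)
        = Ideal.Quotient.mkₐ K (facetIdeal K F) := by
      apply MvPolynomial.algHom_ext
      intro x
      simp only [AlgHom.comp_apply, Ideal.Quotient.mkₐ_eq_mk]
      rw [Ideal.Quotient.eq]
      by_cases hx : x ∈ F
      · have h1 : s (ψ (X x)) = ∑ y, C (∑ j, B x j * lc (Θ j) y) * X y := by
          simp only [ψ, aeval_X, if_pos hx, map_sum, map_mul, s]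
          have : ∀ j, (aeval Θ) (C (B x j)) * Θ j
              = ∑ y, C (B x j * lc (Θ j) y) * X y := by
            intro j
            conv_lhs => rw [linear_eq (hΘ j)]
            rw [Finset.mul_sum]
            refine Finset.sum_congr rfl ?_
            intro y _
            rw [← algebraMap_eq, AlgHom.commutes, algebraMap_eq, map_mul, mul_assoc]
          rw [Finset.sum_congr rfl (fun j _ => this j), Finset.sum_comm]
          refine Finset.sum_congr rfl ?_
          intro y _
          rw [Finset.sum_mul]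
          refine Finset.sum_congr rfl ?_
          intro j _
          simp
        rw [h1, ← Finset.sum_filter_add_sum_filter_not _ (· ∈ F)]
        have h2 : ∑ y ∈ Finset.univ.filter (· ∈ F), (C (∑ j, B x j * lc (Θ j) y) * X y :
            MvPolynomial V K) = X x := by
          rw [Finset.sum_eq_single x]
          · rw [hB x x hx, if_pos rfl]; simp
          · intro y hy hyx
            rw [hB x y (by simpa using hy), if_neg hyx]; simp
          · intro h; exact absurd (by simpa using hx) h
        rw [h2, add_sub_cancel_left]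
        apply Ideal.sum_mem
        intro y hy
        apply Ideal.mul_mem_left
        exact X_mem_facetIdeal (by simpa using hy)
      · have : s (ψ (X x)) = 0 := by
          simp only [ψ, aeval_X, if_neg hx, map_zero]
        rw [this, zero_sub]
        exact (Ideal.neg_mem_iff _).2 (X_mem_facetIdeal hx)
    have h2 := congrArg (fun g => g f) this
    exact h2.symm
  have hker : ∀ f, ψ f = 0 → f ∈ facetIdeal K F := by
    intro f hf
    have := hsψ f
    rw [hf, map_zero, sub_zero] at this
    exact this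
  obtain ⟨r1, r2, r3⟩ := reg_X (K := K)
  refine ⟨?_, ?_, ?_⟩
  · intro f hf
    apply hker
    have h1 := hψP _ hf
    rw [map_mul, hψΘ] at h1
    exact (Ideal.mem_bot).1 (r1 _ ((Ideal.mem_bot).2 h1))
  · intro f a hf
    have h1 := hψP _ hf
    rw [map_sub, map_mul, map_mul, hψΘ, hψΘ] at h1
    obtain ⟨q, hq⟩ := r2 _ _ ((Ideal.mem_bot).2 h1)
    refine ⟨s q, hker _ ?_⟩
    rw [map_sub, map_mul, hψΘ, hψs]
    exact (Ideal.mem_bot).1 hq
  · intro f a b hf
    have h1 := hψP _ hf
    rw [map_sub, map_sub, map_mul, map_mul, map_mul, hψΘ, hψΘ, hψΘ] at h1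
    obtain ⟨q, r, hq⟩ := r3 _ _ _ ((Ideal.mem_bot).2 h1)
    refine ⟨s q, s r, hker _ ?_⟩
    rw [map_sub, map_sub, map_mul, map_mul, hψΘ, hψΘ, hψs, hψs]
    exact (Ideal.mem_bot).1 hq

end base

end Pool.Agent.Work.MP_28b0d6_al
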