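import Pool.Agent.Work.MP_28b0d6_al.Defs

set_option autoImplicit false

namespace Pool.Agent.Work.MP_28b0d6_al

open MvPolynomial

universe u v

section abstractReg

variable {S : Type u} [CommRing S]

/-- elementwise form of `x, y, z` being a weakly regular sequence modulo `I` -/
def Reg (x y z : S) (I : Ideal S) : Prop :=
  (∀ f, x * f ∈ I → f ∈ I) ∧ (∀ f a, y * f - x * a ∈ I → ∃ q, f - x * q ∈ I) ∧
  (∀ f a b, z * f - x * a - y * b ∈ I → ∃ q r, f - x * q - y * r ∈ I)

theorem reg_step {x y z m : S} {I J P : Ideal S} (hIJ : I ≤ J) (hm : m ∈ J)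
    (hJ : ∀ f ∈ J, ∃ i ∈ I, ∃ g, f = i + m * g) (hP : ∀ g, m * g ∈ I ↔ g ∈ P)
    (rJ : Reg x y z J) (rP : Reg x y z P) : Reg x y z I := by
  obtain ⟨j1, j2, j3⟩ := rJ
  obtain ⟨p1, p2, p3⟩ := rP
  refine ⟨?_, ?_, ?_⟩
  · intro f hf
    obtain ⟨i, hi, g, rfl⟩ := hJ f (j1 f (hIJ hf))
    have h1 : m * (x * g) ∈ I := by
      have : m * (x * g) = x * (i + m * g) - x * i := by ring
      rw [this]; exact I.sub_mem hf (I.mul_mem_left _ hi)
    have h2 : m * g ∈ I := (hP g).2 (p1 g ((hP _).1 h1))
    exact I.add_mem hi h2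
  · intro f a hf
    obtain ⟨q, hq⟩ := j2 f a (hIJ hf)
    obtain ⟨i, hi, g, hg⟩ := hJ _ hq
    have hf' : f = x * q + i + m * g := by
      calc f = x * q + (f - x * q) := by ring
        _ = _ := by rw [hg]; ring
    have h1 : x * (a - y * q) ∈ J := by
      have : x * (a - y * q) = y * i + m * (y * g) - (y * f - x * a) := by rw [hf']; ring
      rw [this]
      exact J.sub_mem (J.add_mem (J.mul_mem_left _ (hIJ hi)) (J.mul_mem_right _ hm)) (hIJ hf)
    obtain ⟨i', hi', g', hg'⟩ := hJ _ (j1 _ h1)
    have h2 : m * (y * g - x * g') ∈ I := by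
      have : m * (y * g - x * g') = (y * f - x * a) - y * i + x * i' := by
        have ha : a = y * q + i' + m * g' := by
          calc a = y * q + (a - y * q) := by ring
            _ = _ := by rw [hg']; ring
        rw [hf', ha]; ring
      rw [this]
      exact I.add_mem (I.sub_mem hf (I.mul_mem_left _ hi)) (I.mul_mem_left _ hi')
    obtain ⟨q', hq'⟩ := p2 g g' ((hP _).1 h2)
    refine ⟨q + m * q', ?_⟩
    have : f - x * (q + m * q') = i + m * (g - x * q') := by rw [hf']; ring
    rw [this]
    exact I.add_mem hi ((hP _).2 hq')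
  · intro f a b hf
    obtain ⟨q, r, hqr⟩ := j3 f a b (hIJ hf)
    obtain ⟨i, hi, g, hg⟩ := hJ _ hqr
    have hf' : f = x * q + y * r + i + m * g := by
      calc f = x * q + y * r + (f - x * q - y * r) := by ring
        _ = _ := by rw [hg]; ring
    have h1 : y * (z * r - b) - x * (a - z * q) ∈ J := by
      have : y * (z * r - b) - x * (a - z * q)
          = (z * f - x * a - y * b) - z * i - m * (z * g) := by rw [hf']; ring
      rw [this]
      exact J.sub_mem (J.sub_mem (hIJ hf) (J.mul_mem_left _ (hIJ hi))) (J.mul_mem_right _ hm)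
    obtain ⟨s, hs⟩ := j2 _ _ h1
    obtain ⟨i1, hi1, g1, hg1⟩ := hJ _ hs
    have hb : b = z * r - x * s - i1 - m * g1 := by
      calc b = z * r - x * s - (z * r - b - x * s) := by ring
        _ = _ := by rw [hg1]; ring
    have h2 : x * (y * s - a + z * q) ∈ J := by
      have : x * (y * s - a + z * q)
          = (z * f - x * a - y * b) - z * i - y * i1 - m * (y * g1 + z * g) := by
        rw [hf', hb]; ring
      rw [this]
      exact J.sub_mem (J.sub_mem (J.sub_mem (hIJ hf) (J.mul_mem_left _ (hIJ hi)))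
        (J.mul_mem_left _ (hIJ hi1))) (J.mul_mem_right _ hm)
    obtain ⟨i2, hi2, g2, hg2⟩ := hJ _ (j1 _ h2)
    have ha : a = y * s + z * q - i2 - m * g2 := by
      calc a = y * s + z * q - (y * s - a + z * q) := by ring
        _ = _ := by rw [hg2]; ring
    have h3 : m * (z * g - x * (-g2) - y * (-g1)) ∈ I := by
      have : m * (z * g - x * (-g2) - y * (-g1))
          = (z * f - x * a - y * b) - z * i - y * i1 - x * i2 := by
        rw [hf', hb, ha]; ring
      rw [this]
      exact I.sub_mem (I.sub_mem (I.sub_mem hf (I.mul_mem_left _ hi))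
        (I.mul_mem_left _ hi1)) (I.mul_mem_left _ hi2)
    obtain ⟨q', r', hq'⟩ := p3 g _ _ ((hP _).1 h3)
    refine ⟨q + m * q', r + m * r', ?_⟩
    have : f - x * (q + m * q') - y * (r + m * r') = i + m * (g - x * q' - y * r') := by
      rw [hf']; ring
    rw [this]
    exact I.add_mem hi ((hP _).2 hq')

/-- From the elementwise form to Mathlib's notion of regular sequence. -/
theorem isRegular_of_reg {x y z : S} {I : Ideal S} (h : Reg x y z I)
    (hne : (1 : S) ∉ I ⊔ Ideal.span {x, y, z}) :
    RingTheory.Sequence.IsRegular (S ⧸ I)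
      [Ideal.Quotient.mk I x, Ideal.Quotient.mk I y, Ideal.Quotient.mk I z] := by
  obtain ⟨h1, h2, h3⟩ := h
  refine ⟨⟨?_⟩, ?_⟩
  · intro i hi
    rw [isSMulRegular_iff_right_eq_zero_of_smul]
    intro w
    obtain ⟨w, rfl⟩ := Submodule.Quotient.mk_surjective _ w
    obtain ⟨w, rfl⟩ := Ideal.Quotient.mk_surjective w
    intro hw
    rw [← Submodule.Quotient.mk_smul, Submodule.Quotient.mk_eq_zero] at hw
    rw [Submodule.Quotient.mk_eq_zero]
    simp only [smul_eq_mul, Ideal.mul_top] at hw ⊢
    have hi3 : i < 3 := by simpa using hi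
    interval_cases i
    · simp only [List.take_zero, Ideal.ofList_nil, Ideal.mem_bot, List.getElem_cons_zero] at hw ⊢
      rw [← map_mul, Ideal.Quotient.eq_zero_iff_mem] at hw
      rw [Ideal.Quotient.eq_zero_iff_mem]
      exact h1 w hw
    · simp only [List.take_succ_cons, List.take_zero, List.getElem_cons_succ,
        List.getElem_cons_zero, Ideal.ofList_singleton] at hw ⊢
      rw [Ideal.mem_span_singleton'] at hw ⊢
      obtain ⟨a, ha⟩ := hw
      obtain ⟨a, rfl⟩ := Ideal.Quotient.mk_surjective a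
      rw [← map_mul, ← map_mul, eq_comm, Ideal.Quotient.eq] at ha
      obtain ⟨q, hq⟩ := h2 w a (by rw [mul_comm x a]; exact ha)
      refine ⟨Ideal.Quotient.mk I q, ?_⟩
      rw [← map_mul, eq_comm, Ideal.Quotient.eq, mul_comm q x]
      exact hq
    · simp only [List.take_succ_cons, List.take_zero, List.getElem_cons_succ,
        List.getElem_cons_zero, Ideal.ofList_cons, Ideal.ofList_nil, sup_bot_eq] at hw ⊢
      rw [Submodule.mem_sup] at hw ⊢
      obtain ⟨s, hs, t, ht, hst⟩ := hw
      rw [Ideal.mem_span_singleton'] at hs ht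
      obtain ⟨a, rfl⟩ := hs
      obtain ⟨b, rfl⟩ := ht
      obtain ⟨a, rfl⟩ := Ideal.Quotient.mk_surjective a
      obtain ⟨b, rfl⟩ := Ideal.Quotient.mk_surjective b
      rw [← map_mul, ← map_mul, ← map_mul, ← map_add, eq_comm, Ideal.Quotient.eq] at hst
      obtain ⟨q, r, hq⟩ := h3 w a b (by
        have : z * w - x * a - y * b = z * w - (a * x + b * y) := by ring
        rw [this]; exact hst)
      refine ⟨Ideal.Quotient.mk I (q * x), ?_, Ideal.Quotient.mk I (r * y), ?_, ?_⟩
      · rw [Ideal.mem_span_singleton']; exact ⟨Ideal.Quotient.mk I q, by rw [map_mul]⟩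
      · rw [Ideal.mem_span_singleton']; exact ⟨Ideal.Quotient.mk I r, by rw [map_mul]⟩
      · rw [← map_add, eq_comm, Ideal.Quotient.eq]
        have : w - (q * x + r * y) = w - x * q - y * r := by ring
        rw [this]; exact hq
  · intro htop
    apply hne
    have h1 : (1 : S ⧸ I) ∈ (⊤ : Submodule (S ⧸ I) (S ⧸ I)) := trivial
    rw [htop] at h1
    simp only [smul_eq_mul, Ideal.mul_top] at h1
    have h2 : Ideal.ofList [Ideal.Quotient.mk I x, Ideal.Quotient.mk I y, Ideal.Quotient.mk I z]
        = (Ideal.span {x, y, z}).map (Ideal.Quotient.mk I) := by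
      rw [Ideal.map_span]
      unfold Ideal.ofList
      congr 1
      ext t
      simp only [Set.mem_image, Set.mem_insert_iff, Set.mem_singleton_iff]
      constructor
      · intro ht
        simp at ht
        rcases ht with rfl | rfl | rfl
        · exact ⟨x, Or.inl rfl, rfl⟩
        · exact ⟨y, Or.inr (Or.inl rfl), rfl⟩
        · exact ⟨z, Or.inr (Or.inr rfl), rfl⟩
      · rintro ⟨s, rfl | rfl | rfl, rfl⟩ <;> simp
    rw [h2, ← map_one (Ideal.Quotient.mk I), ← Ideal.mem_comap,
      Ideal.comap_map_of_surjective _ Ideal.Quotient.mk_surjective] at h1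
    rw [← RingHom.ker_eq_comap_bot, Ideal.mk_ker, sup_comm] at h1
    exact h1

end abstractReg

end Pool.Agent.Work.MP_28b0d6_al
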