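import Mathlib

set_option autoImplicit false

namespace Pool.Agent.Work.MP_28b0d6_al

open MvPolynomial

universe u v

/-- The simplicial complex `Δ` has dimension `n`. -/
def HasDim {V : Type v} (Δ : AbstractSimplicialComplex V) (n : ℕ) : Prop :=
  (∀ F ∈ Δ.faces, F.card ≤ n + 1) ∧ ∃ F ∈ Δ.faces, F.card = n + 1

/-- The barycentric subdivision of `Γ`: its vertices are the nonempty faces of `Γ`, its faces are
the nonempty finite chains of nonempty faces of `Γ`. -/
def bary {V : Type v} (Γ : AbstractSimplicialComplex V) :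
    AbstractSimplicialComplex {s : Finset V // s ∈ Γ.faces} where
  faces := {C | C.Nonempty ∧ ∀ s ∈ C, ∀ t ∈ C, s.1 ⊆ t.1 ∨ t.1 ⊆ s.1}
  isRelLowerSet_faces := by
    intro C hC
    refine ⟨hC.1, ?_⟩
    intro D hD hne
    exact ⟨hne, fun s hs t ht => hC.2 s (hD hs) t (hD ht)⟩
  singleton_mem := by
    intro v
    refine ⟨Finset.singleton_nonempty v, ?_⟩
    intro s hs t ht
    rw [Finset.mem_singleton] at hs ht
    subst hs; subst ht
    exact Or.inl (Finset.Subset.refl _)

/-- The Stanley-Reisner ideal, generated by the squarefree monomials of the non-faces. -/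
noncomputable def srIdeal (K : Type u) [Field K] {V : Type v} (Δ : AbstractSimplicialComplex V) :
    Ideal (MvPolynomial V K) :=
  Ideal.span {m | ∃ F : Finset V, F.Nonempty ∧ F ∉ Δ.faces ∧ m = ∏ x ∈ F, X x}

/-- The ideal `I_Δ + (Θ)`. -/
noncomputable def artIdeal {K : Type u} [Field K] {V : Type v} (Δ : AbstractSimplicialComplex V) {n : ℕ}
    (Θ : Fin (n + 1) → MvPolynomial V K) : Ideal (MvPolynomial V K) :=
  srIdeal K Δ ⊔ Ideal.span (Set.range Θ)

/-- `Θ` is a linear system of parameters of `K[Δ]`: `Δ` has dimension `n`, `Θ` consists of `n + 1`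
linear forms, and `S/(I_Δ + (Θ))` has finite dimension over `K`. -/
structure IsLSOP {K : Type u} [Field K] {V : Type v} (Δ : AbstractSimplicialComplex V) {n : ℕ}
    (Θ : Fin (n + 1) → MvPolynomial V K) : Prop where
  dim_eq : HasDim Δ n
  linear : ∀ i, (Θ i).IsHomogeneous 1
  finite : Module.Finite K (MvPolynomial V K ⧸ artIdeal Δ Θ)

/-- `K[Δ]` is Cohen-Macaulay: it has a linear system of parameters, and every linear system of
parameters is a regular sequence on it. -/
def IsCohenMacaulay (K : Type u) [Field K] {V : Type v} (Δ : AbstractSimplicialComplex V) : Prop :=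
  (∃ (n : ℕ) (Θ : Fin (n + 1) → MvPolynomial V K), IsLSOP Δ Θ) ∧
  ∀ (n : ℕ) (Θ : Fin (n + 1) → MvPolynomial V K), IsLSOP Δ Θ →
    RingTheory.Sequence.IsRegular (MvPolynomial V K ⧸ srIdeal K Δ)
      (List.ofFn fun i => Ideal.Quotient.mk (srIdeal K Δ) (Θ i))

/-- The degree `i` part of `S/J`, the image of the forms of degree `i`. -/
noncomputable def gr {K : Type u} [Field K] {V : Type v} (J : Ideal (MvPolynomial V K)) (i : ℕ) :
    Submodule K (MvPolynomial V K ⧸ J) :=
  (homogeneousSubmodule V K i).map (Ideal.Quotient.mkₐ K J).toLinearMap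

/-- `S/J` has the weak Lefschetz property: for some linear form `ℓ` each multiplication map
`ℓ : (S/J)_i → (S/J)_{i+1}` is injective or surjective. -/
def HasWLP {K : Type u} [Field K] {V : Type v} (J : Ideal (MvPolynomial V K)) : Prop :=
  ∃ ℓ : MvPolynomial V K, ℓ.IsHomogeneous 1 ∧ ∀ i : ℕ,
    (∀ a ∈ gr J i, Ideal.Quotient.mk J ℓ * a = 0 → a = 0) ∨
    (∀ b ∈ gr J (i + 1), ∃ a ∈ gr J i, Ideal.Quotient.mk J ℓ * a = b)

end Pool.Agent.Work.MP_28b0d6_al
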