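import Pool.Agent.Work.MP_28b0d6_al.Fail

set_option autoImplicit false

namespace Pool.Agent.Work.MP_28b0d6_al

open MvPolynomial

/-- The example: the full 2-skeleton of the simplex on `0,1,2,3,4` together with the
triangle `3,4,5`. -/
def Gam : AbstractSimplicialComplex (Fin 6) where
  faces := {s | s.Nonempty ∧ ((s ⊆ {0, 1, 2, 3, 4} ∧ s.card ≤ 3) ∨ s ⊆ {3, 4, 5})}
  isRelLowerSet_faces := by
    intro s hs
    refine ⟨hs.1, ?_⟩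
    intro t hts ht
    refine ⟨ht, ?_⟩
    rcases hs.2 with h | h
    · exact Or.inl ⟨hts.trans h.1, (Finset.card_le_card hts).trans h.2⟩
    · exact Or.inr (hts.trans h)
  singleton_mem := by
    intro v
    refine ⟨Finset.singleton_nonempty v, ?_⟩
    revert v
    decide

instance (s : Finset (Fin 6)) : Decidable (s ∈ Gam.faces) :=
  inferInstanceAs (Decidable (s.Nonempty ∧ ((s ⊆ {0, 1, 2, 3, 4} ∧ s.card ≤ 3) ∨ s ⊆ {3, 4, 5})))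

abbrev Vt := {s : Finset (Fin 6) // s ∈ Gam.faces}

def toVt (n : ℕ) : Vt :=
  if h : (Finset.univ.filter (fun i : Fin 6 => n.testBit i.1)) ∈ Gam.faces then ⟨_, h⟩
  else ⟨{0}, by decide⟩

def rawList : List (ℕ × ℕ × ℕ × List ℕ) :=
  [
   (32, 48, 56, [32, 48]), (32, 40, 56, [32]), (16, 48, 56, [48]), (16, 24, 56, [16, 56]),
   (8, 40, 56, [40]), (8, 24, 56, [56]), (16, 24, 28, [16, 24, 28]), (16, 20, 28, [16, 28]),
   (8, 24, 28, [24, 28]), (8, 12, 28, [8, 28]), (4, 20, 28, [20, 28]), (4, 12, 28, [28]),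
   (16, 24, 26, [16, 24, 26]), (16, 18, 26, [16, 26]), (8, 24, 26, [24, 26]), (8, 10, 26, [8, 26]),
   (2, 18, 26, [18, 26]), (2, 10, 26, [26]), (16, 20, 22, [16, 20, 22]), (16, 18, 22, [16, 22]),
   (4, 20, 22, [20, 22]), (4, 6, 22, [4, 22]), (2, 18, 22, [18, 22]), (2, 6, 22, [22]),
   (8, 12, 14, [8, 12, 14]), (8, 10, 14, [8, 14]), (4, 12, 14, [12, 14]), (4, 6, 14, [4, 14]),
   (2, 10, 14, [10, 14]), (2, 6, 14, [14]), (16, 24, 25, [16, 24]), (16, 17, 25, [16, 25]),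
   (8, 24, 25, [24]), (8, 9, 25, [8, 25]), (1, 17, 25, [17, 25]), (1, 9, 25, [25]),
   (16, 20, 21, [16, 20]), (16, 17, 21, [16, 21]), (4, 20, 21, [20]), (4, 5, 21, [4, 21]),
   (1, 17, 21, [17, 21]), (1, 5, 21, [21]), (8, 12, 13, [8, 12]), (8, 9, 13, [8, 13]),
   (4, 12, 13, [12]), (4, 5, 13, [4, 13]), (1, 9, 13, [9, 13]), (1, 5, 13, [13]),
   (16, 18, 19, [16, 18]), (16, 17, 19, [16]), (2, 18, 19, [18]), (2, 3, 19, [2, 19]),
   (1, 17, 19, [17]), (1, 3, 19, [19]), (8, 10, 11, [8, 10]), (8, 9, 11, [8]),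
   (2, 10, 11, [10]), (2, 3, 11, [2, 11]), (1, 9, 11, [9]), (1, 3, 11, [11]),
   (4, 6, 7, [4, 6]), (4, 5, 7, [4]), (2, 6, 7, [6]), (2, 3, 7, [2]),
   (1, 5, 7, [5]), (1, 3, 7, [])]

def shList : List (Finset Vt × Finset Vt) :=
  rawList.map (fun p => ({toVt p.1, toVt p.2.1, toVt p.2.2.1}, (p.2.2.2.map toVt).toFinset))

def Check {V : Type} [DecidableEq V] : List (Finset V × Finset V) → Prop
  | [] => True
  | p :: L => p.2 ⊆ p.1 ∧ (∀ q ∈ L, ¬ p.2 ⊆ q.1) ∧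
      (∀ x ∈ p.2, ∃ q ∈ L, p.1.erase x ⊆ q.1) ∧ Check L

instance decCheck {V : Type} [DecidableEq V] : (L : List (Finset V × Finset V)) →
    Decidable (Check L)
  | [] => inferInstanceAs (Decidable True)
  | p :: L => by
    have := decCheck L
    unfold Check
    infer_instance

theorem shelling_of_check {V : Type} [DecidableEq V] (L : List (Finset V × Finset V))
    (h : Check L) : IsShelling V L := by
  induction L with
  | nil => trivial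
  | cons p L ih =>
    obtain ⟨F, R⟩ := p
    obtain ⟨h1, h2, h3, h4⟩ := h
    refine ⟨h1, h2, ?_, ih h4⟩
    intro G hG hL x hx
    by_contra hxG
    obtain ⟨q, hq, hsub⟩ := h3 x hx
    refine hL q hq (fun y hy => hsub ?_)
    rw [Finset.mem_erase]
    exact ⟨fun h => hxG (h ▸ hy), hG hy⟩

theorem check_shList : Check shList := by decide +kernel

theorem shList_chain : ∀ p ∈ shList, p.1.card = 3 ∧
    ∀ s ∈ p.1, ∀ t ∈ p.1, s.1 ⊆ t.1 ∨ t.1 ⊆ s.1 := by decide +kernel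

theorem shList_cover : ∀ s3 s2 : Vt, s2.1 ⊆ s3.1 → ∀ s1 : Vt, s1.1 ⊆ s2.1 →
    ∃ p ∈ shList, s1 ∈ p.1 ∧ s2 ∈ p.1 ∧ s3 ∈ p.1 := by decide +kernel

theorem card_vt : ∀ s : Vt, 1 ≤ s.1.card ∧ s.1.card ≤ 3 := by decide +kernel

def Vsub : Finset Vt := Finset.univ.filter (fun s => s.1 ⊆ {0, 1, 2, 3, 4})

def Isub : Finset (Vt × Vt) := Finset.univ.filter (fun p => p.1.1 ⊆ p.2.1 ∧ p.2.1 ⊆ {0, 1, 2, 3, 4})

theorem card_Vsub : Vsub.card = 25 := by decide +kernel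

theorem card_Isub : Isub.card = 105 := by decide +kernel

def va : Vt := ⟨{4, 5}, by decide⟩
def vb : Vt := ⟨{5}, by decide⟩
def Fa : Finset Vt := {⟨{4}, by decide⟩, ⟨{4, 5}, by decide⟩, ⟨{3, 4, 5}, by decide⟩}
def Fb : Finset Vt := {⟨{5}, by decide⟩, ⟨{3, 5}, by decide⟩, ⟨{3, 4, 5}, by decide⟩}
def F0 : Finset Vt := {⟨{0}, by decide⟩, ⟨{0, 1}, by decide⟩, ⟨{0, 1, 2}, by decide⟩}

theorem Fa_link : ∀ x : Vt, x ∉ Fa → x ≠ vb → va ≠ x ∧ ¬ (va.1 ⊆ x.1 ∨ x.1 ⊆ va.1) := by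
  decide +kernel
theorem Fb_link : ∀ x : Vt, x ∉ Fb → x ≠ va → vb ≠ x ∧ ¬ (vb.1 ⊆ x.1 ∨ x.1 ⊆ vb.1) := by
  decide +kernel
theorem Fa_chain : Fa.card = 3 ∧ ∀ s ∈ Fa, ∀ t ∈ Fa, s.1 ⊆ t.1 ∨ t.1 ⊆ s.1 := by decide +kernel
theorem Fb_chain : Fb.card = 3 ∧ ∀ s ∈ Fb, ∀ t ∈ Fb, s.1 ⊆ t.1 ∨ t.1 ⊆ s.1 := by decide +kernel
theorem F0_chain : F0.card = 3 ∧ va ∉ F0 ∧ vb ∉ F0 ∧ va ≠ vb ∧
    ∀ s ∈ F0, ∀ t ∈ F0, s.1 ⊆ t.1 ∨ t.1 ⊆ s.1 := by decide +kernel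

end Pool.Agent.Work.MP_28b0d6_al
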