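import Pool.Agent.Work.MP_28b0d6_al.Lsop

set_option autoImplicit false

namespace Pool.Agent.Work.MP_28b0d6_al

open MvPolynomial

universe u v

section fail

variable {K : Type u} [Field K] {V : Type v} [Fintype V] [DecidableEq V]

/-- The forms `X a * ℓ` are multiples of `X a * X b` modulo the ideal. -/
theorem mul_form {Δ : AbstractSimplicialComplex V} {Θ : Fin 3 → MvPolynomial V K}
    (hlin : ∀ i, (Θ i).IsHomogeneous 1) {F : Finset V} (hF : Inv Θ F) {a b : V}
    (hab : ∀ x, x ∉ F → x ≠ b → a ≠ x ∧ {a, x} ∉ Δ.faces)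
    {ℓ : MvPolynomial V K} (hℓ : ℓ.IsHomogeneous 1) :
    ∃ c : K, X a * ℓ - C c * (X a * X b) ∈ artIdeal (n := 2) Δ Θ := by
  obtain ⟨γ, hγ⟩ := hF.1 (fun x => lc ℓ x)
  let ℓ' : MvPolynomial V K := ℓ - ∑ i, C (γ i) * Θ i
  have hℓ' : ℓ'.IsHomogeneous 1 := by
    have h1 : ∀ i ∈ (Finset.univ : Finset (Fin 3)), (C (γ i) * Θ i).IsHomogeneous 1 := by
      intro i _
      have := (isHomogeneous_C V (γ i)).mul (hlin i)
      rwa [zero_add] at this
    exact (homogeneousSubmodule V K 1).sub_mem hℓ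
      ((homogeneousSubmodule V K 1).sum_mem h1)
  have hlc : ∀ x ∈ F, lc ℓ' x = 0 := by
    intro x hx
    have : lc ℓ' x = lc ℓ x - ∑ i, γ i * lc (Θ i) x := by
      simp only [ℓ', lc, coeff_sub, coeff_sum, coeff_C_mul]
    rw [this, hγ x hx, sub_self]
  refine ⟨if b ∈ F then 0 else lc ℓ' b, ?_⟩
  have hΘJ : ∀ i, Θ i ∈ artIdeal (n := 2) Δ Θ := fun i =>
    (le_sup_right : Ideal.span (Set.range Θ) ≤ artIdeal (n := 2) Δ Θ)
      (Ideal.subset_span ⟨i, rfl⟩)
  have h1 : X a * ℓ = X a * ℓ' + ∑ i, (X a * C (γ i)) * Θ i := by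
    simp only [ℓ', mul_sub, Finset.mul_sum, mul_assoc]
    ring
  have h2 : X a * ℓ' - C (if b ∈ F then 0 else lc ℓ' b) * (X a * X b)
      ∈ artIdeal (n := 2) Δ Θ := by
    have h3 : X a * ℓ' - C (if b ∈ F then 0 else lc ℓ' b) * (X a * X b)
        = ∑ x ∈ Finset.univ.filter (fun x => x ∉ F ∧ x ≠ b), C (lc ℓ' x) * (X a * X x) := by
      have h4 : ∀ x, (X a * (C (lc ℓ' x) * X x) : MvPolynomial V K)
          = C (lc ℓ' x) * (X a * X x) := fun x => by ring
      have e0 : X a * ℓ' = ∑ x, C (lc ℓ' x) * (X a * X x) := by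
        conv_lhs => rw [linear_eq hℓ']
        rw [Finset.mul_sum]
        exact Finset.sum_congr rfl (fun x _ => h4 x)
      rw [e0]
      have h5 : ∀ x, (C (lc ℓ' x) * (X a * X x) : MvPolynomial V K)
          = (if x ∉ F ∧ x ≠ b then C (lc ℓ' x) * (X a * X x) else 0)
            + (if x = b then C (if b ∈ F then 0 else lc ℓ' b) * (X a * X b) else 0) := by
        intro x
        by_cases hx : x ∈ F
        · rw [hlc x hx]
          by_cases hxb : x = b
          · subst hxb; simp [hx]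
          · simp [hx, hxb]
        · by_cases hxb : x = b
          · subst hxb; simp [hx]
          · simp [hx, hxb]
      rw [Finset.sum_congr rfl (fun x _ => h5 x), Finset.sum_add_distrib]
      rw [← Finset.sum_filter]
      simp
    rw [h3]
    apply Ideal.sum_mem
    intro x hx
    apply Ideal.mul_mem_left
    simp only [Finset.mem_filter, Finset.mem_univ, true_and] at hx
    obtain ⟨h6, h7⟩ := hab x hx.1 hx.2
    apply (le_sup_left : srIdeal K Δ ≤ artIdeal (n := 2) Δ Θ)
    apply Ideal.subset_span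
    exact ⟨{a, x}, ⟨a, by simp⟩, h7, by rw [Finset.prod_pair h6]⟩
  have h8 : X a * ℓ - C (if b ∈ F then 0 else lc ℓ' b) * (X a * X b)
      = (X a * ℓ' - C (if b ∈ F then 0 else lc ℓ' b) * (X a * X b))
        + ∑ i, (X a * C (γ i)) * Θ i := by
    rw [h1]; ring
  rw [h8]
  exact Ideal.add_mem _ h2 (Ideal.sum_mem _ (fun i _ => Ideal.mul_mem_left _ _ (hΘJ i)))

theorem mk_mem_gr {J : Ideal (MvPolynomial V K)} {i : ℕ} {f : MvPolynomial V K}
    (hf : f.IsHomogeneous i) : Ideal.Quotient.mk J f ∈ gr J i :=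
  ⟨f, hf, rfl⟩

/-- Multiplication by a linear form is not injective in degree one. -/
theorem not_inj {Δ : AbstractSimplicialComplex V} {Θ : Fin 3 → MvPolynomial V K}
    (hlin : ∀ i, (Θ i).IsHomogeneous 1) {Fa Fb F0 : Finset V} (hFa : Inv Θ Fa)
    (hFb : Inv Θ Fb) (hF0 : Inv Θ F0) {a b : V} (hne : a ≠ b) (ha : a ∉ F0) (hb : b ∉ F0)
    (haF : ∀ x, x ∉ Fa → x ≠ b → a ≠ x ∧ {a, x} ∉ Δ.faces)
    (hbF : ∀ x, x ∉ Fb → x ≠ a → b ≠ x ∧ {b, x} ∉ Δ.faces)
    {ℓ : MvPolynomial V K} (hℓ : ℓ.IsHomogeneous 1) :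
    ¬ (∀ y ∈ gr (artIdeal (n := 2) Δ Θ) 1,
      Ideal.Quotient.mk (artIdeal (n := 2) Δ Θ) ℓ * y = 0 → y = 0) := by
  intro h
  obtain ⟨l, hl⟩ := mul_form (Δ := Δ) hlin hFa haF hℓ
  obtain ⟨m, hm⟩ := mul_form (Δ := Δ) hlin hFb hbF hℓ
  -- nontrivial combination
  obtain ⟨α, β, hαβ, hlm⟩ : ∃ α β : K, (α ≠ 0 ∨ β ≠ 0) ∧ α * l + β * m = 0 := by
    by_cases hl0 : l = 0
    · exact ⟨1, 0, Or.inl one_ne_zero, by rw [hl0]; ring⟩
    · exact ⟨m, -l, Or.inr (neg_ne_zero.2 hl0), by ring⟩
  have hhom : (C α * X a + C β * X b : MvPolynomial V K).IsHomogeneous 1 := by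
    have h1 := (isHomogeneous_C V α).mul (isHomogeneous_X K a)
    have h2 := (isHomogeneous_C V β).mul (isHomogeneous_X K b)
    rw [zero_add] at h1 h2
    exact h1.add h2
  have h1 := h _ (mk_mem_gr hhom) (by
    rw [← map_mul, Ideal.Quotient.eq_zero_iff_mem]
    have : ℓ * (C α * X a + C β * X b) = C α * (X a * ℓ - C l * (X a * X b))
        + C β * (X b * ℓ - C m * (X b * X a)) + C (α * l + β * m) * (X a * X b) := by
      rw [map_add, map_mul, map_mul]; ring
    rw [this, hlm, map_zero, zero_mul, add_zero]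
    exact Ideal.add_mem _ (Ideal.mul_mem_left _ _ hl) (Ideal.mul_mem_left _ _ hm))
  rw [Ideal.Quotient.eq_zero_iff_mem] at h1
  obtain ⟨γ, hγ⟩ := lc_artIdeal hlin h1
  have h2 : ∀ x, lc (C α * X a + C β * X b : MvPolynomial V K) x
      = α * (if a = x then 1 else 0) + β * (if b = x then 1 else 0) := by
    intro x
    simp only [lc, coeff_add, coeff_C_mul, coeff_X]
    congr 2
    · by_cases hax : a = x
      · subst hax; simp
      · rw [if_neg, if_neg hax]
        intro h; exact hax (Finsupp.single_left_injective one_ne_zero h)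
    · by_cases hax : b = x
      · subst hax; simp
      · rw [if_neg, if_neg hax]
        intro h; exact hax (Finsupp.single_left_injective one_ne_zero h)
  have h3 : γ = 0 := by
    apply hF0.2
    intro x hx
    rw [← hγ x, h2]
    rw [if_neg (fun h => ha (by rw [h]; exact hx)), if_neg (fun h => hb (by rw [h]; exact hx))]
    ring
  have h4 := hγ a
  rw [h2, h3, if_pos rfl, if_neg (Ne.symm hne)] at h4
  have h5 := hγ b
  rw [h2, h3, if_pos rfl, if_neg hne] at h5
  simp only [Pi.zero_apply, zero_mul, Finset.sum_const_zero, mul_one, mul_zero, add_zero,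
    zero_add] at h4 h5
  rcases hαβ with h | h
  · exact h h4
  · exact h h5

/-- Multiplication by a linear form is not surjective from degree one to degree two. -/
theorem not_surj {Δ : AbstractSimplicialComplex V} {Θ : Fin 3 → MvPolynomial V K}
    (hlin : ∀ i, (Θ i).IsHomogeneous 1) (V' : Finset V) (I : Finset (V × V))
    (hI1 : ∀ p ∈ I, p.1 ∈ V' ∧ p.2 ∈ V') (hI2 : ∀ p ∈ I, {p.1, p.2} ∈ Δ.faces)
    (hI3 : ∀ s t, (s, t) ∈ I → (t, s) ∈ I → s = t) (hcard : 4 * V'.card < I.card)
    {ℓ : MvPolynomial V K} (hℓ : ℓ.IsHomogeneous 1) :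
    ¬ (∀ b ∈ gr (artIdeal (n := 2) Δ Θ) (1 + 1), ∃ a ∈ gr (artIdeal (n := 2) Δ Θ) 1,
      Ideal.Quotient.mk (artIdeal (n := 2) Δ Θ) ℓ * a = b) := by
  intro h
  let c : Fin 4 → V → K := fun k => if hk : k.1 < 3 then lc (Θ ⟨k.1, hk⟩) else lc ℓ
  let T : (Fin 4 → V' → K) →ₗ[K] (I → K) :=
    { toFun := fun A p => ∑ k, (if p.1.1 = p.1.2 then c k p.1.1 * A k ⟨p.1.1, (hI1 _ p.2).1⟩
        else c k p.1.1 * A k ⟨p.1.2, (hI1 _ p.2).2⟩ + c k p.1.2 * A k ⟨p.1.1, (hI1 _ p.2).1⟩)
      map_add' := by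
        intro A B
        funext p
        simp only [Pi.add_apply]
        rw [← Finset.sum_add_distrib]
        refine Finset.sum_congr rfl ?_
        intro k _
        split_ifs <;> ring
      map_smul' := by
        intro r A
        funext p
        simp only [Pi.smul_apply, smul_eq_mul, RingHom.id_apply]
        rw [Finset.mul_sum]
        refine Finset.sum_congr rfl ?_
        intro k _
        split_ifs <;> ring }
  have hT : ∀ A (p : I), T A p = ∑ k, (if p.1.1 = p.1.2 then
      c k p.1.1 * A k ⟨p.1.1, (hI1 _ p.2).1⟩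
        else c k p.1.1 * A k ⟨p.1.2, (hI1 _ p.2).2⟩ + c k p.1.2 * A k ⟨p.1.1, (hI1 _ p.2).1⟩) :=
    fun _ _ => rfl
  have hbasis : ∀ p : I, Pi.single p 1 ∈ LinearMap.range T := by
    rintro ⟨⟨s0, t0⟩, hp⟩
    have hhom : (X s0 * X t0 : MvPolynomial V K).IsHomogeneous (1 + 1) :=
      (isHomogeneous_X K s0).mul (isHomogeneous_X K t0)
    obtain ⟨a, ⟨s', hs', rfl⟩, ha⟩ := h _ (mk_mem_gr hhom)
    have ha' : ℓ * s' - X s0 * X t0 ∈ artIdeal (n := 2) Δ Θ := by
      rw [← Ideal.Quotient.eq, map_mul]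
      exact ha
    obtain ⟨i, hi, g, hg⟩ := mem_artIdeal ha'
    refine ⟨fun k x => if hk : k.1 < 3 then - lc (g ⟨k.1, hk⟩) x else lc s' x, ?_⟩
    funext p
    obtain ⟨⟨s, t⟩, hst⟩ := p
    -- take the coefficient of X s * X t
    have h1 := congrArg (coeff (Finsupp.single s 1 + Finsupp.single t 1)) hg
    rw [coeff_sub, coeff_add, coeff_two_srIdeal hi (hI2 _ hst), zero_add, coeff_sum,
      mul_comm ℓ s', coeff_two_mul hℓ] at h1
    have h2 : ∀ k, coeff (Finsupp.single s 1 + Finsupp.single t 1) (g k * Θ k)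
        = if s = t then lc (Θ k) s * lc (g k) s
          else lc (Θ k) s * lc (g k) t + lc (Θ k) t * lc (g k) s :=
      fun k => coeff_two_mul (hlin k) s t
    rw [Finset.sum_congr rfl (fun k _ => h2 k)] at h1
    have h3 : coeff (Finsupp.single s 1 + Finsupp.single t 1) (X s0 * X t0 : MvPolynomial V K)
        = if (s, t) = (s0, t0) then 1 else 0 := by
      have : (X s0 * X t0 : MvPolynomial V K)
          = monomial (Finsupp.single s0 1 + Finsupp.single t0 1) 1 := by
        rw [X, X, monomial_mul, one_mul]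
      rw [this, coeff_monomial]
      by_cases heq : (s, t) = (s0, t0)
      · rw [Prod.mk.injEq] at heq
        obtain ⟨rfl, rfl⟩ := heq
        simp
      · rw [if_neg heq, if_neg]
        intro hsum
        apply heq
        have hm : ({s0, t0} : Multiset V) = {s, t} := by
          have := congrArg Finsupp.toMultiset hsum
          simpa [Finsupp.toMultiset_single] using this
        have hm2 : s0 ::ₘ {t0} = s ::ₘ {t} := hm
        rw [Multiset.cons_eq_cons] at hm2
        rcases hm2 with ⟨h4, h5⟩ | ⟨h4, cs, h5, h6⟩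
        · rw [Multiset.singleton_inj] at h5
          rw [h4, h5]
        · have hcs : cs = 0 := by
            have := congrArg Multiset.card h5
            simp at this
            exact this
          subst hcs
          have h7 : t0 = s := by simpa using h5
          have h8 : t = s0 := by simpa using h6
          subst h7; subst h8
          have := hI3 _ _ hp hst
          rw [this]
    rw [h3] at h1
    rw [hT]
    rw [Fin.sum_univ_castSucc]
    have hc1 : ∀ k : Fin 3, c k.castSucc = lc (Θ k) := by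
      intro k
      simp only [c, Fin.val_castSucc, Fin.is_lt, dite_true, Fin.eta]
    have hc2 : c (Fin.last 3) = lc ℓ := by
      simp only [c, Fin.val_last, lt_irrefl, dite_false]
    simp only [hc1, hc2, Fin.val_castSucc, Fin.is_lt, dite_true, Fin.eta, Fin.val_last,
      lt_irrefl, dite_false]
    rw [Pi.single_apply]
    by_cases heq : s = t
    · subst heq
      simp only [if_true] at h1 ⊢
      have h9 : ∑ x : Fin 3, lc (Θ x) s * -lc (g x) s = - ∑ x : Fin 3, lc (Θ x) s * lc (g x) s := by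
        rw [← Finset.sum_neg_distrib]
        exact Finset.sum_congr rfl (fun x _ => by ring)
      rw [h9, ← h1]
      by_cases hh : (s, s) = (s0, t0)
      · have : (⟨(s, s), hst⟩ : I) = ⟨(s0, t0), hp⟩ := Subtype.ext hh
        rw [if_pos hh, if_pos this]; ring
      · have : (⟨(s, s), hst⟩ : I) ≠ ⟨(s0, t0), hp⟩ := fun h => hh (congrArg Subtype.val h)
        rw [if_neg hh, if_neg this]; ring
    · simp only [if_neg heq] at h1 ⊢
      have h9 : ∑ x : Fin 3, (lc (Θ x) s * -lc (g x) t + lc (Θ x) t * -lc (g x) s)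
          = - ∑ x : Fin 3, (lc (Θ x) s * lc (g x) t + lc (Θ x) t * lc (g x) s) := by
        rw [← Finset.sum_neg_distrib]
        exact Finset.sum_congr rfl (fun x _ => by ring)
      rw [h9, ← h1]
      by_cases hh : (s, t) = (s0, t0)
      · have : (⟨(s, t), hst⟩ : I) = ⟨(s0, t0), hp⟩ := Subtype.ext hh
        rw [if_pos hh, if_pos this]; ring
      · have : (⟨(s, t), hst⟩ : I) ≠ ⟨(s0, t0), hp⟩ := fun h => hh (congrArg Subtype.val h)
        rw [if_neg hh, if_neg this]; ring
  have hsurj : LinearMap.range T = ⊤ := by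
    rw [eq_top_iff]
    intro f _
    have : f = ∑ p, f p • Pi.single p 1 := by
      funext q
      rw [Finset.sum_apply, Finset.sum_eq_single q]
      · simp
      · intro p _ hpq
        simp [Pi.single_apply, Ne.symm hpq]
      · intro h; exact absurd (Finset.mem_univ _) h
    rw [this]
    exact Submodule.sum_mem _ (fun p _ => Submodule.smul_mem _ _ (hbasis p))
  have hfr := LinearMap.finrank_range_le T
  rw [hsurj, finrank_top, Module.finrank_fintype_fun_eq_card,
    Module.finrank_pi_fintype] at hfr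
  simp only [Module.finrank_fintype_fun_eq_card, Fintype.card_coe, Finset.sum_const,
    Finset.card_univ, Fintype.card_fin, smul_eq_mul] at hfr
  omega

end fail

end Pool.Agent.Work.MP_28b0d6_al
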