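import Pool.Agent.Work.MP_28b0d6_al.Example

set_option autoImplicit false

namespace Pool.Agent.Work.MP_28b0d6_al

open MvPolynomial

universe u v

theorem mem_bary {C : Finset Vt} : C ∈ (bary Gam).faces ↔
    C.Nonempty ∧ ∀ s ∈ C, ∀ t ∈ C, s.1 ⊆ t.1 ∨ t.1 ⊆ s.1 := Iff.rfl

theorem facet_mem {F : Finset Vt} (h : F.card = 3 ∧ ∀ s ∈ F, ∀ t ∈ F, s.1 ⊆ t.1 ∨ t.1 ⊆ s.1) :
    F ∈ (bary Gam).faces :=
  ⟨Finset.card_pos.1 (by omega), h.2⟩

/-- every face lies in one of the listed facets -/
theorem cover {C : Finset Vt} (hC : C ∈ (bary Gam).faces) : ∃ p ∈ shList, C ⊆ p.1 := by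
  obtain ⟨hne, hch⟩ := hC
  obtain ⟨s3, h3, hmax⟩ := Finset.exists_max_image C (fun s => s.1.card) hne
  obtain ⟨s1, h1, hmin⟩ := Finset.exists_min_image C (fun s => s.1.card) hne
  have hle : ∀ x ∈ C, x.1 ⊆ s3.1 := by
    intro x hx
    rcases hch x hx s3 h3 with h | h
    · exact h
    · exact (Finset.eq_of_subset_of_card_le h (hmax x hx)).symm ▸ Finset.Subset.refl _
  have hge : ∀ x ∈ C, s1.1 ⊆ x.1 := by
    intro x hx
    rcases hch s1 h1 x hx with h | h
    · exact h
    · exact (Finset.eq_of_subset_of_card_le h (hmin x hx)) ▸ Finset.Subset.refl _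
  by_cases hex : ∃ x ∈ C, x ≠ s1 ∧ x ≠ s3
  · obtain ⟨s2, h2, h21, h23⟩ := hex
    obtain ⟨p, hp, hp1, hp2, hp3⟩ := shList_cover s3 s2 (hle s2 h2) s1 (hge s2 h2)
    refine ⟨p, hp, ?_⟩
    intro y hy
    by_cases hy1 : y = s1
    · rw [hy1]; exact hp1
    by_cases hy3 : y = s3
    · rw [hy3]; exact hp3
    have hcard : ∀ z ∈ C, z ≠ s1 → z ≠ s3 → z.1.card = 2 := by
      intro z hz hz1 hz3
      have e1 : s1.1.card < z.1.card := by
        apply Finset.card_lt_card
        refine ⟨hge z hz, fun h => hz1 (Subtype.ext (Finset.Subset.antisymm h (hge z hz)))⟩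
      have e3 : z.1.card < s3.1.card := by
        apply Finset.card_lt_card
        refine ⟨hle z hz, fun h => hz3 (Subtype.ext (Finset.Subset.antisymm (hle z hz) h))⟩
      have := (card_vt s1).1
      have := (card_vt s3).2
      omega
    have e2 := hcard s2 h2 h21 h23
    have ey := hcard y hy hy1 hy3
    have : y = s2 := by
      apply Subtype.ext
      rcases hch y hy s2 h2 with h | h
      · exact Finset.eq_of_subset_of_card_le h (by omega)
      · exact (Finset.eq_of_subset_of_card_le h (by omega)).symm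
    rw [this]; exact hp2
  · push Not at hex
    obtain ⟨p, hp, hp1, hp2, hp3⟩ := shList_cover s3 s3 (Finset.Subset.refl _) s1 (hge s3 h3)
    refine ⟨p, hp, ?_⟩
    intro y hy
    by_cases hy1 : y = s1
    · rw [hy1]; exact hp1
    · rw [hex y hy hy1]; exact hp3

theorem hasDim_bary : HasDim (bary Gam) 2 := by
  refine ⟨?_, F0, facet_mem ⟨F0_chain.1, F0_chain.2.2.2.2⟩, F0_chain.1⟩
  intro C hC
  obtain ⟨p, hp, hsub⟩ := cover hC
  have := (shList_chain p hp).1
  have := Finset.card_le_card hsub
  omega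

theorem hasDim_Gam : HasDim Gam 2 := by
  refine ⟨?_, {0, 1, 2}, by decide, by decide⟩
  intro F hF
  exact (card_vt ⟨F, hF⟩).2

theorem hasDim_unique {V : Type v} {Δ : AbstractSimplicialComplex V} {m n : ℕ}
    (hm : HasDim Δ m) (hn : HasDim Δ n) : m = n := by
  obtain ⟨F, hF, hFc⟩ := hm.2
  obtain ⟨G, hG, hGc⟩ := hn.2
  have := hm.1 G hG
  have := hn.1 F hF
  omega

section

variable {K : Type u} [Field K]

theorem srIdeal_eq : srIdeal K (bary Gam) = listIdeal K shList := by
  ext f
  rw [mem_srIdeal, mem_listIdeal]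
  refine forall₂_congr ?_
  intro m _
  constructor
  · rintro ⟨hne, hnf⟩ p hp hsub
    exact hnf (((bary Gam).isRelLowerSet_faces (facet_mem (shList_chain p hp))).2 hsub hne)
  · intro h
    constructor
    · by_contra hne
      rw [Finset.not_nonempty_iff_eq_empty] at hne
      obtain ⟨p, hp, -⟩ := cover ((bary Gam).singleton_mem va)
      apply h p hp
      rw [hne]; exact Finset.empty_subset _
    · intro hf
      obtain ⟨p, hp, hsub⟩ := cover hf
      exact h p hp hsub

/-- the rank-selected linear system of parameters -/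
noncomputable def th (K : Type u) [Field K] (i : Fin 3) : MvPolynomial Vt K :=
  ∑ x ∈ Finset.univ.filter (fun x : Vt => x.1.card = i.1 + 1), X x

theorem th_lsop : IsLSOP (K := K) (n := 2) (bary Gam) (th K) := by
  refine ⟨hasDim_bary, ?_, ?_⟩
  · intro i
    exact IsHomogeneous.sum _ _ _ (fun x _ => isHomogeneous_X K x)
  · have hsq : ∀ x : Vt, (X x ^ 2 : MvPolynomial Vt K) ∈ artIdeal (n := 2) (bary Gam) (th K) := by
      intro x
      have hc := card_vt x
      let i : Fin 3 := ⟨x.1.card - 1, by omega⟩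
      have hx : x ∈ Finset.univ.filter (fun y : Vt => y.1.card = i.1 + 1) := by
        simp only [Finset.mem_filter, Finset.mem_univ, true_and, i]
        omega
      have h1 : (X x ^ 2 : MvPolynomial Vt K) = X x * th K i
          - ∑ y ∈ (Finset.univ.filter (fun y : Vt => y.1.card = i.1 + 1)).erase x,
            X x * X y := by
        unfold th
        rw [Finset.mul_sum, ← Finset.add_sum_erase _ _ hx]
        ring
      rw [h1]
      apply Ideal.sub_mem
      · apply Ideal.mul_mem_left
        exact (le_sup_right : Ideal.span (Set.range (th K)) ≤ artIdeal (n := 2) (bary Gam) (th K))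
          (Ideal.subset_span ⟨i, rfl⟩)
      · apply Ideal.sum_mem
        intro y hy
        simp only [Finset.mem_erase, Finset.mem_filter, Finset.mem_univ, true_and, i] at hy
        obtain ⟨hyx, hyc⟩ := hy
        apply (le_sup_left : srIdeal K (bary Gam) ≤ artIdeal (n := 2) (bary Gam) (th K))
        apply Ideal.subset_span
        refine ⟨{x, y}, ⟨x, by simp⟩, ?_, by rw [Finset.prod_pair (Ne.symm hyx)]⟩
        intro hf
        have h2 := hf.2 x (by simp) y (by simp)
        apply hyx
        apply Subtype.ext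
        rcases h2 with h | h
        · exact (Finset.eq_of_subset_of_card_le h (by omega)).symm
        · exact Finset.eq_of_subset_of_card_le h (by omega)
    have hint : ∀ a ∈ Set.range (fun x : Vt =>
        Ideal.Quotient.mkₐ K (artIdeal (n := 2) (bary Gam) (th K)) (X x)), IsIntegral K a := by
      rintro _ ⟨x, rfl⟩
      apply IsIntegral.of_pow (n := 2) (by norm_num)
      beta_reduce
      rw [← map_pow]
      have : Ideal.Quotient.mkₐ K (artIdeal (n := 2) (bary Gam) (th K)) (X x ^ 2) = 0 := by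
        rw [Ideal.Quotient.mkₐ_eq_mk, Ideal.Quotient.eq_zero_iff_mem]
        exact hsq x
      rw [this]
      exact isIntegral_zero
    have hfg := fg_adjoin_of_finite (Set.finite_range _) hint
    have htop : Algebra.adjoin K (Set.range (fun x : Vt =>
        Ideal.Quotient.mkₐ K (artIdeal (n := 2) (bary Gam) (th K)) (X x))) = ⊤ := by
      have h1 : Set.range (fun x : Vt =>
          Ideal.Quotient.mkₐ K (artIdeal (n := 2) (bary Gam) (th K)) (X x))
          = (Ideal.Quotient.mkₐ K (artIdeal (n := 2) (bary Gam) (th K))) ''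
            (Set.range (X : Vt → MvPolynomial Vt K)) := by
        rw [← Set.range_comp]; rfl
      rw [h1, ← AlgHom.map_adjoin, adjoin_range_X, Algebra.map_top, AlgHom.range_eq_top]
      exact Ideal.Quotient.mkₐ_surjective K _
    rw [htop] at hfg
    exact ⟨hfg⟩

theorem coeff_zero_art {Θ : Fin 3 → MvPolynomial Vt K} (hlin : ∀ i, (Θ i).IsHomogeneous 1) :
    (1 : MvPolynomial Vt K) ∉ srIdeal K (bary Gam) ⊔ Ideal.span {Θ 0, Θ 1, Θ 2} := by
  intro h
  have h1 : srIdeal K (bary Gam) ⊔ Ideal.span {Θ 0, Θ 1, Θ 2}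
      ≤ RingHom.ker (constantCoeff : MvPolynomial Vt K →+* K) := by
    rw [sup_le_iff]
    constructor
    · intro f hf
      rw [mem_srIdeal] at hf
      rw [RingHom.mem_ker, constantCoeff_eq]
      by_contra hne
      have := (hf 0 (mem_support_iff.2 hne)).1
      simp at this
    · rw [Ideal.span_le]
      have h2 : ∀ i, constantCoeff (Θ i) = 0 := by
        intro i
        rw [constantCoeff_eq]
        exact (hlin i).coeff_eq_zero (by simp)
      intro g hg
      simp only [Set.mem_insert_iff, Set.mem_singleton_iff] at hg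
      rcases hg with rfl | rfl | rfl
      · exact h2 0
      · exact h2 1
      · exact h2 2
  have := h1 h
  rw [RingHom.mem_ker, map_one] at this
  exact one_ne_zero this

theorem bary_cm : IsCohenMacaulay K (bary Gam) := by
  refine ⟨⟨2, th K, th_lsop⟩, ?_⟩
  intro n Θ hΘ
  have hn := hasDim_unique hΘ.dim_eq hasDim_bary
  subst hn
  have hreg : Reg (Θ 0) (Θ 1) (Θ 2) (srIdeal K (bary Gam)) := by
    rw [srIdeal_eq]
    apply reg_listIdeal shList (shelling_of_check _ check_shList)
    intro p hp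
    apply reg_facetIdeal hΘ.linear
    exact inv_of_lsop hΘ (facet_mem (shList_chain p hp)) (shList_chain p hp).1
  have := isRegular_of_reg hreg (coeff_zero_art hΘ.linear)
  rw [List.ofFn_succ, List.ofFn_succ, List.ofFn_succ, List.ofFn_zero]
  exact this

theorem no_wlp (n : ℕ) (Θ : Fin (n + 1) → MvPolynomial Vt K) (hΘ : IsLSOP (bary Gam) Θ) :
    ¬ HasWLP (artIdeal (bary Gam) Θ) := by
  have hn := hasDim_unique hΘ.dim_eq hasDim_bary
  subst hn
  rintro ⟨ℓ, hℓ, h⟩
  have hlink : ∀ {a x : Vt}, ¬ (a.1 ⊆ x.1 ∨ x.1 ⊆ a.1) → {a, x} ∉ (bary Gam).faces := by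
    intro a x hnot hf
    exact hnot (hf.2 a (by simp) x (by simp))
  rcases h 1 with h | h
  · refine not_inj (Δ := bary Gam) hΘ.linear
      (inv_of_lsop hΘ (facet_mem Fa_chain) Fa_chain.1)
      (inv_of_lsop hΘ (facet_mem Fb_chain) Fb_chain.1)
      (inv_of_lsop hΘ (facet_mem ⟨F0_chain.1, F0_chain.2.2.2.2⟩) F0_chain.1)
      F0_chain.2.2.2.1 F0_chain.2.1 F0_chain.2.2.1 ?_ ?_ hℓ h
    · intro x hx hxb
      have := Fa_link x hx hxb
      exact ⟨this.1, hlink this.2⟩
    · intro x hx hxb
      have := Fb_link x hx hxb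
      exact ⟨this.1, hlink this.2⟩
  · refine not_surj (Δ := bary Gam) hΘ.linear Vsub Isub ?_ ?_ ?_ ?_ hℓ h
    · intro p hp
      simp only [Isub, Finset.mem_filter, Finset.mem_univ, true_and] at hp
      simp only [Vsub, Finset.mem_filter, Finset.mem_univ, true_and]
      exact ⟨hp.1.trans hp.2, hp.2⟩
    · intro p hp
      simp only [Isub, Finset.mem_filter, Finset.mem_univ, true_and] at hp
      refine ⟨⟨p.1, by simp⟩, ?_⟩
      intro s hs t ht
      simp only [Finset.mem_insert, Finset.mem_singleton] at hs ht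
      rcases hs with rfl | rfl <;> rcases ht with rfl | rfl
      · exact Or.inl (Finset.Subset.refl _)
      · exact Or.inl hp.1
      · exact Or.inr hp.1
      · exact Or.inl (Finset.Subset.refl _)
    · intro s t h1 h2
      simp only [Isub, Finset.mem_filter, Finset.mem_univ, true_and] at h1 h2
      exact Subtype.ext (Finset.Subset.antisymm h1.1 h2.1)
    · rw [card_Vsub, card_Isub]; norm_num

theorem main : HasDim Gam 2 ∧ ∀ (K : Type u) [Field K], IsCohenMacaulay K (bary Gam) ∧
    ∀ (n : ℕ) (Θ : Fin (n + 1) → MvPolynomial Vt K), IsLSOP (bary Gam) Θ →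
      ¬ HasWLP (artIdeal (bary Gam) Θ) :=
  ⟨hasDim_Gam, fun _ _ => ⟨bary_cm, no_wlp⟩⟩

end

end Pool.Agent.Work.MP_28b0d6_al
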