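import Pool.Agent.Work.MP_28b0d6_al.Base

set_option autoImplicit false

namespace Pool.Agent.Work.MP_28b0d6_al

open MvPolynomial

universe u v

section lsop

variable {K : Type u} [Field K] {V : Type v} [Fintype V]

theorem inv_of_lsop {Δ : AbstractSimplicialComplex V} {Θ : Fin 3 → MvPolynomial V K}
    (h : IsLSOP (n := 2) Δ Θ) {F : Finset V} (hF : F ∈ Δ.faces) (hc : F.card = 3) : Inv Θ F := by
  classical
  have hlin := h.linear
  have := h.finite
  -- key: no nonzero vector supported on F is killed by all forms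
  have key : ∀ w : V → K, (∀ i, ∑ x ∈ F, lc (Θ i) x * w x = 0) → ∀ x ∈ F, w x = 0 := by
    intro w hw x0 hx0
    by_contra hwx
    let χ : MvPolynomial V K →ₐ[K] Polynomial K :=
      aeval (fun x => if x ∈ F then Polynomial.C (w x) * Polynomial.X else 0)
    have hJ : artIdeal Δ Θ ≤ RingHom.ker χ := by
      unfold artIdeal
      rw [sup_le_iff]
      constructor
      · unfold srIdeal
        rw [Ideal.span_le]
        rintro _ ⟨G, hG, hG', rfl⟩
        simp only [SetLike.mem_coe, RingHom.mem_ker, map_prod, χ, aeval_X]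
        have : ∃ x ∈ G, x ∉ F := by
          by_contra hcon
          push Not at hcon
          exact hG' ((Δ.isRelLowerSet_faces hF).2 hcon hG)
        obtain ⟨x, hxG, hxF⟩ := this
        exact Finset.prod_eq_zero hxG (if_neg hxF)
      · rw [Ideal.span_le]
        rintro _ ⟨i, rfl⟩
        simp only [SetLike.mem_coe, RingHom.mem_ker]
        rw [linear_eq (hlin i), map_sum]
        have h1 : ∀ x, χ (C (lc (Θ i) x) * X x) = if x ∈ F then
            Polynomial.C (lc (Θ i) x * w x) * Polynomial.X else 0 := by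
          intro x
          simp only [χ, map_mul, aeval_X]
          rw [← algebraMap_eq, AlgHom.commutes]
          split_ifs
          · rw [Polynomial.algebraMap_eq, mul_assoc]
          · rw [mul_zero]
        rw [Finset.sum_congr rfl (fun x _ => h1 x), ← Finset.sum_filter, ← Finset.sum_mul,
          ← map_sum]
        have h2 : ∑ x ∈ Finset.univ.filter (· ∈ F), lc (Θ i) x * w x = 0 := by
          rw [← hw i]
          refine Finset.sum_congr ?_ (fun _ _ => rfl)
          ext x; simp
        rw [h2]; simp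
    let χ' : (MvPolynomial V K ⧸ artIdeal Δ Θ) →ₐ[K] Polynomial K :=
      Ideal.Quotient.liftₐ (artIdeal Δ Θ) χ (fun a ha => hJ ha)
    have h1 : IsIntegral K (Ideal.Quotient.mk (artIdeal Δ Θ) (X x0)) :=
      IsIntegral.of_finite K _
    have h2 : IsIntegral K (χ' (Ideal.Quotient.mk (artIdeal Δ Θ) (X x0))) := h1.map χ'
    have h3 : χ' (Ideal.Quotient.mk (artIdeal Δ Θ) (X x0)) = Polynomial.C (w x0) * Polynomial.X := by
      show χ (X x0) = _
      simp only [χ, aeval_X, if_pos hx0]
    rw [h3] at h2
    have h4 : IsIntegral K (Polynomial.X : Polynomial K) := by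
      have : (Polynomial.X : Polynomial K) = (w x0)⁻¹ • (Polynomial.C (w x0) * Polynomial.X) := by
        rw [← Polynomial.smul_eq_C_mul, smul_smul, inv_mul_cancel₀ hwx, one_smul]
      rw [this]
      exact h2.smul _
    exact Polynomial.transcendental_X K h4.isAlgebraic
  -- square matrix
  have e : Fin 3 ≃ F := (Fintype.equivOfCardEq (by simp [hc]))
  let M : Matrix (Fin 3) (Fin 3) K := fun i j => lc (Θ i) (e j)
  have hM : IsUnit M := by
    rw [← Matrix.mulVec_injective_iff_isUnit]
    intro w1 w2 hw
    have h0 : M.mulVec (w1 - w2) = 0 := by rw [Matrix.mulVec_sub, hw, sub_self]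
    let w : V → K := fun x => if hx : x ∈ F then (w1 - w2) (e.symm ⟨x, hx⟩) else 0
    have hw' : ∀ i, ∑ x ∈ F, lc (Θ i) x * w x = 0 := by
      intro i
      have h1 := congrFun h0 i
      simp only [Matrix.mulVec, dotProduct, Pi.zero_apply] at h1
      rw [← h1, ← Finset.sum_coe_sort F, ← e.sum_comp]
      refine Finset.sum_congr rfl ?_
      intro j _
      simp [M, w]
    have h2 := key w hw'
    funext j
    have h3 := h2 (e j) (e j).2
    simp only [w, Finset.coe_mem, dite_true] at h3
    simp at h3
    exact sub_eq_zero.1 h3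
  have hvm : ∀ (γ : Fin 3 → K) (j : Fin 3), Matrix.vecMul γ M j = ∑ i, γ i * lc (Θ i) (e j) := by
    intro γ j
    simp [Matrix.vecMul, dotProduct, M]
  constructor
  · intro t
    obtain ⟨γ, hγ⟩ := Matrix.vecMul_surjective_iff_isUnit.2 hM (fun j => t (e j))
    refine ⟨γ, ?_⟩
    intro x hx
    have := congrFun hγ (e.symm ⟨x, hx⟩)
    beta_reduce at this
    rw [hvm] at this
    simpa using this
  · intro γ hγ
    apply Matrix.vecMul_injective_iff_isUnit.2 hM
    funext j
    beta_reduce
    rw [hvm]
    simp only [Matrix.zero_vecMul, Pi.zero_apply]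
    exact hγ (e j) (e j).2

theorem coeff_one_mul {g θ : MvPolynomial V K} (hθ : θ.IsHomogeneous 1) (x : V) :
    lc (g * θ) x = coeff 0 g * lc θ x := by
  classical
  conv_lhs => rw [linear_eq hθ]
  unfold lc
  rw [Finset.mul_sum, coeff_sum]
  have : ∀ y, coeff (Finsupp.single x 1) (g * (C (coeff (Finsupp.single y 1) θ) * X y))
      = if x = y then coeff 0 g * coeff (Finsupp.single y 1) θ else 0 := by
    intro y
    have h1 : g * (C (coeff (Finsupp.single y 1) θ) * X y)
        = C (coeff (Finsupp.single y 1) θ) * (g * X y) := by ring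
    rw [h1, coeff_C_mul, coeff_mul_X']
    by_cases hxy : x = y
    · subst hxy
      rw [if_pos (by simp), if_pos rfl, tsub_self, mul_comm]
    · rw [if_neg, if_neg hxy, mul_zero]
      rw [Finsupp.support_single _ one_ne_zero, Finset.mem_singleton]
      exact fun h => hxy h.symm
  rw [Finset.sum_congr rfl (fun y _ => this y)]
  simp

theorem coeff_two_mul {g θ : MvPolynomial V K} (hθ : θ.IsHomogeneous 1) (s t : V)
    [DecidableEq V] :
    coeff (Finsupp.single s 1 + Finsupp.single t 1) (g * θ)
      = if s = t then lc θ s * lc g s else lc θ s * lc g t + lc θ t * lc g s := by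
  conv_lhs => rw [linear_eq hθ]
  rw [Finset.mul_sum, coeff_sum]
  have h0 : ∀ y, coeff (Finsupp.single s 1 + Finsupp.single t 1) (g * (C (lc θ y) * X y))
      = lc θ y * if y ∈ (Finsupp.single s 1 + Finsupp.single t 1 : V →₀ ℕ).support then
        coeff (Finsupp.single s 1 + Finsupp.single t 1 - Finsupp.single y 1) g else 0 := by
    intro y
    have h1 : g * (C (lc θ y) * X y) = C (lc θ y) * (g * X y) := by ring
    rw [h1, coeff_C_mul, coeff_mul_X']
  rw [Finset.sum_congr rfl (fun y _ => h0 y)]
  by_cases hst : s = t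
  · subst hst
    rw [if_pos rfl, Finset.sum_eq_single s]
    · rw [if_pos, add_tsub_cancel_right]
      · rfl
      · rw [Finsupp.mem_support_iff]; simp
    · intro y _ hy
      rw [if_neg, mul_zero]
      rw [Finsupp.mem_support_iff]
      simp [Finsupp.single_apply, hy.symm]
    · intro h; exact absurd (Finset.mem_univ _) h
  · rw [if_neg hst]
    have h2 : ∀ y, (lc θ y * if y ∈ (Finsupp.single s 1 + Finsupp.single t 1 : V →₀ ℕ).support then
        coeff (Finsupp.single s 1 + Finsupp.single t 1 - Finsupp.single y 1) g else 0)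
        = (if y = s then lc θ s * lc g t else 0) + (if y = t then lc θ t * lc g s else 0) := by
      intro y
      by_cases hys : y = s
      · subst hys
        rw [if_pos, if_pos rfl, if_neg hst, add_zero, add_tsub_cancel_left]
        · rfl
        · rw [Finsupp.mem_support_iff]; simp
      · by_cases hyt : y = t
        · subst hyt
          rw [if_pos, if_neg hys, if_pos rfl, zero_add, add_tsub_cancel_right]
          · rfl
          · rw [Finsupp.mem_support_iff]; simp
        · rw [if_neg, if_neg hys, if_neg hyt, mul_zero, add_zero]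
          rw [Finsupp.mem_support_iff]
          simp [Finsupp.single_apply, Ne.symm hys, Ne.symm hyt]
    rw [Finset.sum_congr rfl (fun y _ => h2 y), Finset.sum_add_distrib]
    simp

theorem mem_artIdeal {Δ : AbstractSimplicialComplex V} {Θ : Fin 3 → MvPolynomial V K}
    {f : MvPolynomial V K} (hf : f ∈ artIdeal (n := 2) Δ Θ) :
    ∃ i ∈ srIdeal K Δ, ∃ g : Fin 3 → MvPolynomial V K, f = i + ∑ k, g k * Θ k := by
  unfold artIdeal at hf
  rw [Submodule.mem_sup] at hf
  obtain ⟨i, hi, j, hj, rfl⟩ := hf
  rw [Ideal.mem_span_range_iff_exists_fun] at hj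
  obtain ⟨g, rfl⟩ := hj
  exact ⟨i, hi, g, rfl⟩

theorem lc_srIdeal {Δ : AbstractSimplicialComplex V} {f : MvPolynomial V K}
    (hf : f ∈ srIdeal K Δ) (x : V) : lc f x = 0 := by
  classical
  by_contra h
  rw [mem_srIdeal] at hf
  have := (hf _ (mem_support_iff.2 h)).2
  rw [Finsupp.support_single _ one_ne_zero] at this
  exact this (Δ.singleton_mem x)

theorem coeff_two_srIdeal {Δ : AbstractSimplicialComplex V} {f : MvPolynomial V K}
    [DecidableEq V]
    (hf : f ∈ srIdeal K Δ) {s t : V} (hst : {s, t} ∈ Δ.faces) :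
    coeff (Finsupp.single s 1 + Finsupp.single t 1) f = 0 := by
  by_contra h
  rw [mem_srIdeal] at hf
  have := (hf _ (mem_support_iff.2 h)).2
  apply this
  convert hst
  ext y
  rw [Finsupp.mem_support_iff, Finset.mem_insert, Finset.mem_singleton]
  simp only [Finsupp.coe_add, Pi.add_apply, Finsupp.single_apply, ne_eq]
  by_cases h1 : s = y
  · subst h1; simp
  · by_cases h2 : t = y
    · subst h2; simp
    · simp [h1, h2, Ne.symm h1, Ne.symm h2]

theorem lc_artIdeal {Δ : AbstractSimplicialComplex V} {Θ : Fin 3 → MvPolynomial V K}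
    (hlin : ∀ i, (Θ i).IsHomogeneous 1)
    {f : MvPolynomial V K} (hf : f ∈ artIdeal (n := 2) Δ Θ) :
    ∃ γ : Fin 3 → K, ∀ x, lc f x = ∑ i, γ i * lc (Θ i) x := by
  obtain ⟨i, hi, g, rfl⟩ := mem_artIdeal hf
  refine ⟨fun k => coeff 0 (g k), ?_⟩
  intro x
  have h1 : lc (i + ∑ k, g k * Θ k) x = lc i x + ∑ k, lc (g k * Θ k) x := by
    unfold lc
    rw [coeff_add, coeff_sum]
  rw [h1, lc_srIdeal hi, zero_add]
  exact Finset.sum_congr rfl (fun k _ => coeff_one_mul (hlin k) x)

end lsop

end Pool.Agent.Work.MP_28b0d6_al
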