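import Pool.Agent.Work.MP_28b0d6_al.Core

set_option autoImplicit false

namespace Pool.Agent.Work.MP_28b0d6_al

open MvPolynomial

universe u v

section mono

variable {K : Type u} [Field K] {V : Type v}

/-- the prime ideal generated by the variables outside `F` -/
noncomputable def facetIdeal (K : Type u) [Field K] {V : Type v} (F : Finset V) :
    Ideal (MvPolynomial V K) :=
  Ideal.span (X '' {x | x ∉ F})

theorem mem_facetIdeal {F : Finset V} {f : MvPolynomial V K} :
    f ∈ facetIdeal K F ↔ ∀ m ∈ f.support, ¬ m.support ⊆ F := by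
  unfold facetIdeal
  rw [mem_ideal_span_X_image]
  refine forall₂_congr ?_
  intro m _
  constructor
  · rintro ⟨i, hi, hmi⟩ hsub
    exact hi (hsub (Finsupp.mem_support_iff.2 hmi))
  · intro h
    rw [Finset.not_subset] at h
    obtain ⟨i, hi, hmi⟩ := h
    exact ⟨i, hmi, Finsupp.mem_support_iff.1 hi⟩

theorem X_mem_facetIdeal {F : Finset V} {x : V} (hx : x ∉ F) :
    (X x : MvPolynomial V K) ∈ facetIdeal K F :=
  Ideal.subset_span ⟨x, hx, rfl⟩

theorem prod_X_eq (F : Finset V) :
    (∏ x ∈ F, X x : MvPolynomial V K) = monomial (∑ x ∈ F, Finsupp.single x 1) 1 := by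
  classical
  induction F using Finset.induction_on with
  | empty => simp
  | insert a s ha ih =>
    rw [Finset.prod_insert ha, Finset.sum_insert ha, ih, X, monomial_mul, one_mul]

theorem sum_single_apply (F : Finset V) [DecidableEq V] (x : V) :
    (∑ y ∈ F, Finsupp.single y 1 : V →₀ ℕ) x = if x ∈ F then 1 else 0 := by
  rw [Finsupp.finsetSum_apply]
  simp [Finsupp.single_apply]

theorem sum_single_support (F : Finset V) :
    (∑ y ∈ F, Finsupp.single y 1 : V →₀ ℕ).support = F := by
  classical
  ext x
  rw [Finsupp.mem_support_iff, sum_single_apply]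
  simp

theorem sum_single_le (F : Finset V) (m : V →₀ ℕ) :
    (∑ y ∈ F, Finsupp.single y 1 : V →₀ ℕ) ≤ m ↔ F ⊆ m.support := by
  classical
  constructor
  · intro h x hx
    have := h x
    rw [sum_single_apply, if_pos hx] at this
    rw [Finsupp.mem_support_iff]; omega
  · intro h x
    rw [sum_single_apply]
    split_ifs with hx
    · have := Finsupp.mem_support_iff.1 (h hx); omega
    · exact Nat.zero_le _

theorem mem_srIdeal {Δ : AbstractSimplicialComplex V} {f : MvPolynomial V K} :
    f ∈ srIdeal K Δ ↔ ∀ m ∈ f.support, m.support.Nonempty ∧ m.support ∉ Δ.faces := by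
  have h1 : srIdeal K Δ = Ideal.span ((fun s => monomial s (1 : K)) ''
      {s | ∃ F : Finset V, F.Nonempty ∧ F ∉ Δ.faces ∧ s = ∑ x ∈ F, Finsupp.single x 1}) := by
    unfold srIdeal
    congr 1
    ext m
    constructor
    · rintro ⟨F, hF, hF', rfl⟩
      exact ⟨_, ⟨F, hF, hF', rfl⟩, (prod_X_eq F).symm⟩
    · rintro ⟨s, ⟨F, hF, hF', rfl⟩, rfl⟩
      exact ⟨F, hF, hF', (prod_X_eq F).symm⟩
  rw [h1, mem_ideal_span_monomial_image]
  refine forall₂_congr ?_
  intro m _
  constructor
  · rintro ⟨s, ⟨F, hF, hF', rfl⟩, hs⟩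
    rw [sum_single_le] at hs
    refine ⟨hF.mono hs, ?_⟩
    intro hm
    exact hF' ((Δ.isRelLowerSet_faces hm).2 hs hF)
  · rintro ⟨h1, h2⟩
    exact ⟨_, ⟨m.support, h1, h2, rfl⟩, (sum_single_le _ _).2 (Finset.Subset.refl _)⟩

theorem prod_mul_mem_facetIdeal {F R : Finset V} (hR : R ⊆ F) (g : MvPolynomial V K) :
    (∏ x ∈ R, X x) * g ∈ facetIdeal K F ↔ g ∈ facetIdeal K F := by
  classical
  constructor
  · intro h
    rw [mem_facetIdeal] at h ⊢
    intro m hm hsub
    refine h (m + ∑ x ∈ R, Finsupp.single x 1) ?_ ?_
    · rw [prod_X_eq, mem_support_iff, coeff_monomial_mul', add_comm]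
      rw [if_pos (by exact le_self_add), one_mul, add_tsub_cancel_left]
      exact mem_support_iff.1 hm
    · intro x hx
      have := Finsupp.support_add hx
      rw [Finset.mem_union, sum_single_support] at this
      rcases this with h | h
      · exact hsub h
      · exact hR h
  · exact fun h => Ideal.mul_mem_left _ _ h

/-- A list of pairs (facet, restriction), latest first. -/
def IsShelling (V : Type v) : List (Finset V × Finset V) → Prop
  | [] => True
  | (F, R) :: L => R ⊆ F ∧ (∀ p ∈ L, ¬ R ⊆ p.1) ∧
      (∀ G : Finset V, G ⊆ F → (∀ p ∈ L, ¬ G ⊆ p.1) → R ⊆ G) ∧ IsShelling V L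

/-- the intersection of the facet ideals -/
noncomputable def listIdeal (K : Type u) [Field K] {V : Type v} :
    List (Finset V × Finset V) → Ideal (MvPolynomial V K)
  | [] => ⊤
  | (F, _) :: L => facetIdeal K F ⊓ listIdeal K L

theorem mem_listIdeal {L : List (Finset V × Finset V)} {f : MvPolynomial V K} :
    f ∈ listIdeal K L ↔ ∀ m ∈ f.support, ∀ p ∈ L, ¬ m.support ⊆ p.1 := by
  induction L with
  | nil => simp [listIdeal]
  | cons p L ih =>
    obtain ⟨F, R⟩ := p
    simp only [listIdeal, Ideal.mem_inf, ih, mem_facetIdeal, List.mem_cons, forall_eq_or_imp]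
    constructor
    · rintro ⟨h1, h2⟩ m hm
      exact ⟨h1 m hm, h2 m hm⟩
    · intro h
      exact ⟨fun m hm => (h m hm).1, fun m hm => (h m hm).2⟩

theorem reg_top {S : Type u} [CommRing S] (x y z : S) : Reg x y z (⊤ : Ideal S) :=
  ⟨fun _ _ => trivial, fun _ _ _ => ⟨0, trivial⟩, fun _ _ _ _ => ⟨0, 0, trivial⟩⟩

theorem reg_listIdeal {x y z : MvPolynomial V K} (L : List (Finset V × Finset V))
    (hL : IsShelling V L) (hreg : ∀ p ∈ L, Reg x y z (facetIdeal K p.1)) :
    Reg x y z (listIdeal K L) := by
  classical
  induction L with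
  | nil => exact reg_top x y z
  | cons p L ih =>
    obtain ⟨F, R⟩ := p
    obtain ⟨hRF, hR, hG, hL'⟩ := hL
    have hm : (∏ x ∈ R, X x : MvPolynomial V K) ∈ listIdeal K L := by
      rw [mem_listIdeal]
      intro m hm p hp
      rw [prod_X_eq] at hm
      have := support_monomial_subset hm
      rw [Finset.mem_singleton] at this
      subst this
      rw [sum_single_support]
      exact hR p hp
    refine reg_step (m := ∏ x ∈ R, X x) (J := listIdeal K L) (P := facetIdeal K F) ?_ hm ?_ ?_
      (ih hL' (fun p hp => hreg p (List.mem_cons_of_mem _ hp)))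
      (hreg (F, R) List.mem_cons_self)
    · exact inf_le_right
    · -- decomposition
      intro f hf
      rw [mem_listIdeal] at hf
      -- split f into monomials
      have key : ∀ s : Finset (V →₀ ℕ), s ⊆ f.support →
          ∃ i ∈ listIdeal K ((F, R) :: L), ∃ g, ∑ m ∈ s, monomial m (coeff m f)
            = i + (∏ x ∈ R, X x) * g := by
        intro s
        induction s using Finset.induction_on with
        | empty => intro _; exact ⟨0, Ideal.zero_mem _, 0, by simp⟩
        | insert a s ha ih2 =>
          intro hs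
          obtain ⟨i, hi, g, hg⟩ := ih2 (fun x hx => hs (Finset.mem_insert_of_mem hx))
          have ha' : a ∈ f.support := hs (Finset.mem_insert_self _ _)
          rw [Finset.sum_insert ha, hg]
          by_cases hsub : a.support ⊆ F
          · have hRa : R ⊆ a.support := hG _ hsub (hf a ha')
            refine ⟨i, hi, g + monomial (a - ∑ x ∈ R, Finsupp.single x 1) (coeff a f), ?_⟩
            rw [mul_add, prod_X_eq, monomial_mul, one_mul,
              add_tsub_cancel_of_le ((sum_single_le _ _).2 hRa)]
            ring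
          · refine ⟨i + monomial a (coeff a f), Ideal.add_mem _ hi ?_, g, by ring⟩
            rw [mem_listIdeal]
            intro m hm p hp
            have := support_monomial_subset hm
            rw [Finset.mem_singleton] at this
            subst this
            rcases List.mem_cons.1 hp with rfl | hp
            · exact hsub
            · exact hf m ha' p hp
      obtain ⟨i, hi, g, hg⟩ := key f.support (Finset.Subset.refl _)
      refine ⟨i, hi, g, ?_⟩
      rw [← hg]
      exact f.as_sum
    · intro g
      constructor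
      · intro h
        exact (prod_mul_mem_facetIdeal hRF g).1 h.1
      · intro h
        refine ⟨(prod_mul_mem_facetIdeal hRF g).2 h, Ideal.mul_mem_right _ _ hm⟩

end mono

end Pool.Agent.Work.MP_28b0d6_al
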